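import Pool.Agent.H23.RDD.Targets
import Pool.Agent.H24.RD.MAIN

/-!
# Finitely many elements of the big field lie in a level field
-/

set_option autoImplicit false

namespace Pool.Agent.H19.RDD

open Pool.Agent.H23.RDD Pool.Agent.H24.RD NumberField Height Finset Polynomial

theorem pf_CFS : T_LVB → T_CFS := by
  classical
  intro hLVB Γ S S' hSS F' _ r g γ hγg hdec s hs
  have hγ0 : ∀ i, γ i ≠ 0 := by
    intro i h
    have h1 := hγg i
    rw [h] at h1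
    exact (g i).ne_zero (by rw [← h1]; rfl)
  have : Algebra.IsAlgebraic ℚ (AlgebraicClosure ℚ) := AlgebraicClosure.isAlgebraic ℚ
  have : Algebra.IsAlgebraic F' (AlgebraicClosure ℚ) := Algebra.IsAlgebraic.tower_top (K := ℚ) F'
  have hmono : ∀ N K N₁ K₁ : ℕ, 0 < N → 0 < K → N ∣ N₁ → K ∣ K₁ → K₁ ∣ N₁ → 0 < N₁ →
      Lv F' (AlgebraicClosure ℚ) γ N K ≤ Lv F' (AlgebraicClosure ℚ) γ N₁ K₁ := by
    intro N K N₁ K₁ hN hK h1 h2 h3 h4
    exact (hLVB F' (AlgebraicClosure ℚ) r γ hγ0 N K hN hK).2.2.2.2.2 N₁ K₁ h1 h2 h3 h4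
  have h1S : ∀ p : ℕ, p.Prime → p ∣ 1 → p ∈ S' := fun p hp h =>
    absurd (Nat.dvd_one.mp h) hp.one_lt.ne'
  induction s using Finset.induction_on with
  | empty => exact ⟨1, 1, one_pos, dvd_rfl, h1S, fun z hz => absurd hz (Finset.notMem_empty z)⟩
  | insert z s hzs ih =>
    obtain ⟨N₁, K₁, h1, h3, h5, h7⟩ := ih fun x hx => hs x (Finset.mem_insert_of_mem hx)
    have hz := hs z (Finset.mem_insert_self z s)
    obtain ⟨N₂, K₂, h2, h4, h6, h8⟩ := main_mem hLVB Γ ⊥ S S' hSS F' bot_le r g γ hγg hdec z (by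
      refine IntermediateField.adjoin.mono ℚ _ _ ?_ hz
      rintro x (hx | hx)
      · exact Or.inl (Or.inr hx)
      · exact Or.inr hx)
    have hK₁ := Nat.pos_of_dvd_of_pos h3 h1
    have hK₂ := Nat.pos_of_dvd_of_pos h4 h2
    have hN : 0 < Nat.lcm N₁ N₂ := Nat.lcm_pos h1 h2
    have hd : Nat.lcm K₁ K₂ ∣ Nat.lcm N₁ N₂ :=
      Nat.lcm_dvd (h3.trans (Nat.dvd_lcm_left _ _)) (h4.trans (Nat.dvd_lcm_right _ _))
    refine ⟨Nat.lcm N₁ N₂, Nat.lcm K₁ K₂, hN, hd, ?_, ?_⟩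
    · intro p hp h
      have h9 : p ∣ K₁ * K₂ := h.trans (Nat.lcm_dvd_mul _ _)
      rcases hp.dvd_mul.mp h9 with h10 | h10
      · exact h5 p hp h10
      · exact h6 p hp h10
    · intro x hx
      rcases Finset.mem_insert.mp hx with rfl | hx
      · exact hmono _ _ _ _ h2 hK₂ (Nat.dvd_lcm_right _ _) (Nat.dvd_lcm_right _ _) hd hN h8
      · exact hmono _ _ _ _ h1 hK₁ (Nat.dvd_lcm_left _ _) (Nat.dvd_lcm_left _ _) hd hN (h7 x hx)

end Pool.Agent.H19.RDD
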