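import Pool.Agent.H23.RDD.Targets

/-!
# The level fields are cyclotomic over the bottom level field
-/

set_option autoImplicit false

namespace Pool.Agent.H19.RDD

open Pool.Agent.H23.RDD Pool.Agent.H24.RD NumberField Height Finset Polynomial

/-- the level field is contained in a cyclotomic extension of the bottom level field -/
theorem Lv_le' {F Ω : Type} [Field F] [Field Ω] [Algebra F Ω] {r : ℕ} (γ : Fin r → F)
    {N0 N' a b : ℕ} (h0 : 0 < N0 * N') (hab : N0 * N' = a * b) (hc : a.Coprime b)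
    (ha : a ∣ N0) (z : Ω) (hz : z ∈ Lv F Ω γ (N0 * N') N0) :
    z ∈ IntermediateField.adjoin (Lv F Ω γ N0 N0) {z : Ω | z ^ b = 1} := by
  have hle : Lv F Ω γ (N0 * N') N0 ≤ IntermediateField.restrictScalars F
      (IntermediateField.adjoin (Lv F Ω γ N0 N0) {z : Ω | z ^ b = 1}) := by
    unfold Lv
    rw [IntermediateField.adjoin_le_iff]
    have key : ∀ w : Ω, w ∈ Lv F Ω γ N0 N0 →
        w ∈ IntermediateField.adjoin (Lv F Ω γ N0 N0) {z : Ω | z ^ b = 1} := fun w hw =>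
      (IntermediateField.adjoin (Lv F Ω γ N0 N0) {z : Ω | z ^ b = 1}).algebraMap_mem ⟨w, hw⟩
    rintro w (hw | ⟨i, hw⟩)
    · have hw0 : w ≠ 0 := by
        rintro rfl
        rw [zero_pow h0.ne'] at hw
        exact zero_ne_one hw
      rw [hab] at hw
      have hb : ((a.gcd b : ℕ) : ℤ) = a * Nat.gcdA a b + b * Nat.gcdB a b :=
        Nat.gcd_eq_gcd_ab a b
      rw [hc.gcd_eq_one, Nat.cast_one] at hb
      have e1 : w = w ^ ((b : ℤ) * Nat.gcdB a b) * w ^ ((a : ℤ) * Nat.gcdA a b) := by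
        rw [← zpow_add₀ hw0, add_comm, ← hb, zpow_one]
      have e2 : (w ^ ((b : ℤ) * Nat.gcdB a b)) ^ a = 1 := by
        rw [← zpow_natCast, ← zpow_mul, mul_right_comm, zpow_mul, mul_comm ((b : ℕ) : ℤ),
          ← Nat.cast_mul, zpow_natCast, hw, one_zpow]
      have e3 : (w ^ ((a : ℤ) * Nat.gcdA a b)) ^ b = 1 := by
        rw [← zpow_natCast, ← zpow_mul, mul_right_comm, zpow_mul,
          ← Nat.cast_mul, zpow_natCast, hw, one_zpow]
      show w ∈ IntermediateField.adjoin (Lv F Ω γ N0 N0) {z : Ω | z ^ b = 1}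
      rw [e1]
      refine mul_mem (key _ ?_) (IntermediateField.subset_adjoin _ _ e3)
      refine IntermediateField.subset_adjoin _ _ (Or.inl ?_)
      obtain ⟨c, rfl⟩ := ha
      rw [pow_mul, e2, one_pow]
    · exact key w (IntermediateField.subset_adjoin _ _ (Or.inr ⟨i, hw⟩))
  exact hle hz

theorem pf_LVC : T_LVC := by
  intro F Ω _ _ _ _ _ _ _ r γ hγ ℓ N0 N' hℓ hN0 hℓN'
  have hN' : 0 < N' := by
    rcases Nat.eq_zero_or_pos N' with h | h
    · exact absurd (h ▸ dvd_zero ℓ) hℓN'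
    · exact h
  have h0 : 0 < N0 * N' := Nat.mul_pos hN0 hN'
  obtain ⟨a, b, hb, hab⟩ := Nat.exists_eq_pow_mul_and_not_dvd h0.ne' ℓ hℓ.ne_one
  have hcb : (ℓ ^ a).Coprime b := Nat.Coprime.pow_left a ((Nat.Prime.coprime_iff_not_dvd hℓ).2 hb)
  have ha : ℓ ^ a ∣ N0 := by
    have h1 : (ℓ ^ a).Coprime N' :=
      Nat.Coprime.pow_left a ((Nat.Prime.coprime_iff_not_dvd hℓ).2 hℓN')
    exact h1.dvd_of_dvd_mul_right ⟨b, hab⟩
  refine ⟨b, hb, ?_⟩
  rintro d β ⟨s, hs, hσ⟩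
  refine ⟨s, hs, fun τ hτ => ?_⟩
  have h1 := hσ (τ.restrictScalars F) (fun z hz => hτ z (Lv_le' γ h0 hab hcb ha z hz))
  exact h1

end Pool.Agent.H19.RDD
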